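import Pool.Agent.R490.QuadP

set_option autoImplicit false

/-!
# Narrow progressions in arbitrary sets of primes `p` with `p ^ 2 + p + 1` prime
-/

namespace Pool.Agent.Results.MP_82233c_nt.NarrowProgressions

open Finset Filter

/-- The numbers `m` such that all prime factors of `m` and of `m ^ 2 + m + 1` are larger than
`m ^ (1 / r)`. It contains all primes `m` such that `m ^ 2 + m + 1` is a prime. -/
def RoughPairs (r : ℕ) : Set ℕ :=
  {m | ∀ p : ℕ, p.Prime → p ∣ m ∨ p ∣ m ^ 2 + m + 1 → (m : ℝ) ^ (1 / (r : ℝ)) < (p : ℝ)}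

/-- `m` is a term of an `l`-term arithmetic progression with difference at most `D`, all terms of which
are elements of `A` in the interval `(u, v]`. -/
def InProgression (A : Set ℕ) (l : ℕ) (D : ℝ) (u v m : ℕ) : Prop :=
  ∃ s d : ℕ, 1 ≤ d ∧ (d : ℝ) ≤ D ∧ (∀ i < l, s + i * d ∈ A ∧ u < s + i * d ∧ s + i * d ≤ v) ∧
    ∃ i < l, m = s + i * d

open Classical in
/-- **Narrow progressions.** Let `0 < θ ≤ 1`, `r, l ≥ 2` and `ε > 0`. There is an exponent `B` such that for
all large `X`, all `X ^ θ ≤ Y ≤ X` and EVERY set `A` of integers `m` such that neither `m` nor `m ^ 2 + m + 1`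
has a prime factor `≤ m ^ (1 / r)`, for instance every set of primes `p` with `p ^ 2 + p + 1` prime: all but at
most `ε Y / (log X) ^ 2` of the elements of `A` in `(X, X + Y]` are terms of `l`-term arithmetic progressions,
contained in the part of `A` in `(X, X + Y]`, with difference at most `(log X) ^ B`. -/
theorem result (θ : ℝ) (hθ : 0 < θ) (r : ℕ) (hr : 2 ≤ r) (l : ℕ) (hl : 2 ≤ l) (ε : ℝ) (hε : 0 < ε) :
    ∃ B : ℕ, ∀ᶠ X : ℕ in atTop, ∀ Y : ℕ, (X : ℝ) ^ θ ≤ Y → Y ≤ X →
      ∀ A : Set ℕ, A ⊆ RoughPairs r →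
        (((Ioc X (X + Y)).filter (fun m : ℕ =>
          m ∈ A ∧ ¬ InProgression A l (Real.log X ^ B) X (X + Y) m)).card : ℝ) ≤
        ε * (Y / Real.log X ^ 2) := by
  have hsys : Pool.Agent.W123.RU.Poly.Sys
      (![Polynomial.X, Pool.Agent.TH464.PW.quad 1 1 1] : Fin 2 → Polynomial ℤ) := by
    have hq := Pool.Agent.TH464.PW.quad_deg 1 1 1 one_ne_zero
    refine ⟨?_, ?_, ?_, ?_, ?_⟩
    · intro i
      fin_cases i
      · exact Polynomial.irreducible_X
      · apply Pool.Agent.TH464.PW.quad_irr _ _ _ one_ne_zero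
        · rintro p hp ⟨hd, -, -⟩
          exact hp.one_lt.ne' (Nat.dvd_one.1 (by exact_mod_cast hd))
        · rintro ⟨r, hr⟩
          nlinarith [mul_self_nonneg r]
    · intro i
      fin_cases i
      · show 0 < (Polynomial.X : Polynomial ℤ).natDegree
        rw [Polynomial.natDegree_X]
        norm_num
      · show 0 < (Pool.Agent.TH464.PW.quad 1 1 1).natDegree
        rw [hq]
        norm_num
    · intro i
      fin_cases i
      · show 0 < (Polynomial.X : Polynomial ℤ).leadingCoeff
        rw [Polynomial.leadingCoeff_X]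
        norm_num
      · show 0 < (Pool.Agent.TH464.PW.quad 1 1 1).leadingCoeff
        rw [Pool.Agent.TH464.PW.quad_lead 1 1 1 one_ne_zero]
        norm_num
    · have hne : (Polynomial.X : Polynomial ℤ) ≠ Pool.Agent.TH464.PW.quad 1 1 1 := by
        intro h
        have h1 := congrArg Polynomial.natDegree h
        rw [Polynomial.natDegree_X, hq] at h1
        omega
      intro i j hij
      fin_cases i <;> fin_cases j
      · rfl
      · exact absurd hij hne
      · exact absurd hij.symm hne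
      · rfl
    · intro p hp
      have h5 : ∃ x : ℕ, ¬ (p : ℤ) ∣ (x : ℤ) ∧ ¬ (p : ℤ) ∣ 1 * (x : ℤ) ^ 2 + 1 * x + 1 := by
        by_cases h3 : p = 3
        · subst h3
          exact ⟨2, by norm_num, by norm_num⟩
        · refine ⟨1, fun h => hp.one_lt.ne' (Nat.dvd_one.1 (by exact_mod_cast h)), fun h => h3 ?_⟩
          have h4 : (p : ℤ) ∣ 3 := by simpa using h
          exact (Nat.prime_dvd_prime_iff_eq hp Nat.prime_three).1 (by exact_mod_cast h4)
      obtain ⟨x, hx1, hx2⟩ := h5
      refine ⟨x, ?_⟩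
      intro i
      fin_cases i
      · show ¬ (p : ℤ) ∣ (Polynomial.X : Polynomial ℤ).eval (x : ℤ)
        rw [Polynomial.eval_X]
        exact hx1
      · show ¬ (p : ℤ) ∣ (Pool.Agent.TH464.PW.quad 1 1 1).eval (x : ℤ)
        rw [Pool.Agent.TH464.PW.quad_eval]
        exact hx2
  obtain ⟨B, hB⟩ := Pool.Agent.Y677.RSZ.narrow _ hsys θ hθ r hr l hl ε hε
  refine ⟨B, ?_⟩
  filter_upwards [hB] with X hX Y hXY hYX A hA
  have h := hX Y hXY hYX A (fun m hm => by
    intro i p hp hd
    fin_cases i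
    · have hd1 : (p : ℤ) ∣ (Polynomial.X : Polynomial ℤ).eval (m : ℤ) := hd
      rw [Polynomial.eval_X] at hd1
      exact hA hm p hp (Or.inl (by exact_mod_cast hd1))
    · have hd1 : (p : ℤ) ∣ (Pool.Agent.TH464.PW.quad 1 1 1).eval (m : ℤ) := hd
      rw [Pool.Agent.TH464.PW.quad_eval] at hd1
      refine hA hm p hp (Or.inr ?_)
      have e : (1 : ℤ) * (m : ℤ) ^ 2 + 1 * m + 1 = ((m ^ 2 + m + 1 : ℕ) : ℤ) := by
        push_cast
        ring
      rw [e] at hd1
      exact_mod_cast hd1)
  rw [Fintype.card_fin, mul_div_assoc] at h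
  refine le_trans (le_of_eq ?_) h
  unfold Pool.Agent.TH977.PW.N
  congr 2
  apply filter_congr
  intro m _
  exact Iff.rfl

end Pool.Agent.Results.MP_82233c_nt.NarrowProgressions
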