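import Pool.Agent.R498.MP.LinC

set_option autoImplicit false

/-!
# Strings of consecutive primes `p` in a residue class with almost prime `p ^ 2 + p + 1`
-/

namespace Pool.Agent.Results.MP_82233c_nt.PrimeStrings

open Filter

/-- `p ^ 2 + p + 1` has at most `r` prime factors, counted with multiplicity, all of them at least `w`. -/
def AlmostPrimeValue (r : ℕ) (w : ℝ) (p : ℕ) : Prop :=
  (p ^ 2 + p + 1).primeFactorsList.length ≤ r ∧ ∀ q : ℕ, q.Prime → q ∣ p ^ 2 + p + 1 → w ≤ q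

/-- The primes in the interval `[x, x + C]` are exactly the numbers `x + s`, `s ∈ H`. -/
def PrimePattern (C : ℕ) (H : Finset ℕ) (x : ℕ) : Prop := ∀ y ≤ C, (x + y).Prime ↔ y ∈ H

theorem cast_val (p : ℕ) (_ : 2 ≤ p) : (p : ℤ) ^ 2 + p + 1 = ((p ^ 2 + p + 1 : ℕ) : ℤ) := by
  push_cast
  ring

theorem nonzero (n : ℤ) : n ^ 2 + n + 1 ≠ 0 := by
  intro h
  nlinarith [sq_nonneg (2 * n + 1)]

/-- **Strings of consecutive primes `p ≡ c` modulo `q` with almost prime `p ^ 2 + p + 1`.** Let `q` be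
squarefree and let `c (c ^ 2 + c + 1)` be coprime to `q` (for instance `q = 1`). For every `m` there
are `K`, `r` and `δ > 0` such that, for every finite set `S` of at least `K` nonnegative integers and
every `l`, there is an exponent `B` such that for all large `N` there are a subset `H` of `S` with at
least `m` elements and an arithmetic progression `n, n + d, ..., n + (l - 1) d` in `(N, 2 N]` with
difference `1 ≤ d ≤ (log N) ^ B` such that for all its terms `x` the primes in `[x, x + max S]` are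
exactly the numbers `x + s`, `s ∈ H`, and all these primes `p` are `≡ c` modulo `q` and the numbers
`p ^ 2 + p + 1` have at most `r` prime factors, all of them at least `N ^ δ`. -/
theorem result (q c : ℕ) (hq : Squarefree q)
    (hc : IsCoprime ((c : ℤ) * ((c : ℤ) ^ 2 + c + 1)) (q : ℤ)) (m : ℕ) :
    ∃ (K r : ℕ) (δ : ℝ), 0 < δ ∧ ∀ S : Finset ℕ, K ≤ S.card → ∀ l : ℕ,
    ∃ B : ℕ, ∀ᶠ N : ℕ in atTop, ∃ H ⊆ S, m ≤ H.card ∧ ∃ n d : ℕ, 1 ≤ d ∧
      (d : ℝ) ≤ Real.log N ^ B ∧ ∀ j < l, N < n + j * d ∧ n + j * d + S.sup id ≤ 2 * N ∧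
        PrimePattern (S.sup id) H (n + j * d) ∧
        ∀ s ∈ H, n + j * d + s ≡ c [MOD q] ∧
          AlmostPrimeValue r ((N : ℝ) ^ δ) (n + j * d + s) := by
  have hev : ∀ n : ℤ, (Polynomial.X ^ 2 + Polynomial.X + 1 : Polynomial ℤ).eval n = n ^ 2 + n + 1 := fun n => by
    simp
  obtain ⟨K, r, δ, hδ, hmain⟩ := Pool.Agent.R498.MP.stringsCR
    (Polynomial.X ^ 2 + Polynomial.X + 1)
    (fun n _ => by rw [hev]; exact nonzero n)
    (fun p hp => by
      by_contra hcon
      push Not at hcon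
      have h1 := hcon 1
      have h2 := hcon 2
      rw [hev] at h1 h2
      norm_num at h1 h2
      have h3 : (p : ℤ) ∣ 1 := by
        have h4 := dvd_add (h1.mul_left (5)) (h2.mul_left (-1))
        norm_num at h4
        exact_mod_cast h4
      exact hp.one_lt.ne' (Nat.dvd_one.1 (by exact_mod_cast h3))) q c hq (fun p hp hpq => by
      rw [hev]
      exact Pool.Agent.R498.MP.cop_to _ q hc p hp hpq) m
  refine ⟨K, r, δ, hδ, fun S hS l => ?_⟩
  obtain ⟨B, hB⟩ := hmain S hS l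
  refine ⟨B, ?_⟩
  filter_upwards [hB] with N hN
  obtain ⟨H, hH, hHm, n, d, h3, h4, h5⟩ := hN
  refine ⟨H, hH, hHm, n, d, h3, h4, fun j hj => ?_⟩
  obtain ⟨g1, g2, g3, g4⟩ := h5 j hj
  refine ⟨g1, g2, g3, fun s hs => ?_⟩
  have hsup : s ≤ S.sup id := Finset.le_sup (f := id) (hH hs)
  have hp : 2 ≤ n + j * d + s := ((g3 s hsup).2 hs).two_le
  obtain ⟨gc, -, g5, g6⟩ := g4 s hs
  rw [hev, cast_val _ hp] at g5 g6
  rw [Int.natAbs_natCast] at g5
  exact ⟨gc, g5, fun q hq hqd => g6 q hq (by exact_mod_cast hqd)⟩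

end Pool.Agent.Results.MP_82233c_nt.PrimeStrings
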