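import Pool.Agent.R490.QuadP

set_option autoImplicit false

/-!
# Primes `p` in a progression for which `p ^ 2 + p + 1` is rough: their number and the law of their successors
-/

namespace Pool.Agent.Results.MP_82233c_nt.PrimesInProgressions

open Finset Filter

/-- `l` divides `n` or `n ^ 2 + n + 1`, where `n = q m + a`. -/
def Bad (q a l m : ℕ) : Prop := l ∣ q * m + a ∨ l ∣ (q * m + a) ^ 2 + (q * m + a) + 1

/-- Neither `n` nor `n ^ 2 + n + 1`, where `n = q m + a`, has a prime factor `≤ y`. -/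
def RoughPair (q a y m : ℕ) : Prop := ∀ l : ℕ, l.Prime → l ≤ y → ¬ Bad q a l m

open Classical in
/-- The density of these `m`: the product of `1 - ν(l) / l` over the primes `l ≤ y`, where `ν(l)` is the
number of the residues `m` modulo `l` with `Bad q a l m`. -/
noncomputable def V (q a y : ℕ) : ℝ := ∏ l ∈ (Finset.range (y + 1)).filter Nat.Prime,
    (1 - (((Finset.range l).filter (fun m : ℕ => Bad q a l m)).card : ℝ) / l)

/-- The density of the integers without prime factor `≤ y`. -/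
noncomputable def V1 (y : ℕ) : ℝ := ∏ l ∈ (Finset.range (y + 1)).filter Nat.Prime, (1 - 1 / (l : ℝ))

open Classical in
/-- The `n` in `(u, u + Y]` for which `p = q n + a` is a prime `> y` and `p ^ 2 + p + 1` has no prime factor
`≤ y`. -/
noncomputable def P (q a y u Y : ℕ) : Finset ℕ :=
  (Ioc u (u + Y)).filter (fun n => (q * n + a).Prime ∧ RoughPair q a y n)

open Classical in
/-- The number of the integers `m` in `(n, n + T]` with `RoughPair q a y m`. -/
noncomputable def Next (q a y T n : ℕ) : ℕ := ((Ioc n (n + T)).filter (fun m => RoughPair q a y m)).card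

/-- **The values `p ^ 2 + p + 1` at the primes `p ≡ a` modulo `q`.** Let `q` be squarefree, `θ, δ > 0`, `x0` and
`ε > 0`. There is `r0` such that for `r ≥ r0` and all large `N` the following holds with `y = N ^ (1 / r)`
for ALL `a ≤ N ^ (θ / 4)` such that `a (a ^ 2 + a + 1)` is prime to `q`, all `X ≥ N ^ θ` and all intervals
`(u, u + Y]` in `(0, X]` with `Y ≥ δ X`, with `W = V / V1`: (1) the number of the `n` in the interval for which
`p = q n + a` is a prime `> y` and `p ^ 2 + p + 1` has no prime factor `≤ y` is `(1 + O(ε)) Y W / log X`; (2) if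
`T V ≤ x0`, then the number of the integers `m` in `(n, n + T]` for which neither `k = q m + a` nor
`k ^ 2 + k + 1` has a prime factor `≤ y`, `n` running over these integers, has the Poisson law with mean `T V`,
up to `ε`. -/
theorem result (q : ℕ) (hq : Squarefree q) (θ δ : ℝ) (hθ : 0 < θ) (hδ : 0 < δ) (hδ1 : δ ≤ 1) (x0 ε : ℝ)
    (hε : 0 < ε) (hε1 : ε ≤ 1) :
    ∃ r0 : ℕ, 2 ≤ r0 ∧ ∀ r : ℕ, r0 ≤ r → ∀ᶠ N : ℕ in atTop, ∀ a : ℕ, (a : ℝ) ≤ (N : ℝ) ^ (θ / 4) →
      Nat.Coprime q a → Nat.Coprime q (a ^ 2 + a + 1) →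
      0 < V q a ⌊(N : ℝ) ^ (1 / (r : ℝ))⌋₊ / V1 ⌊(N : ℝ) ^ (1 / (r : ℝ))⌋₊ ∧
      ∀ X : ℕ, (N : ℝ) ^ θ ≤ X → ∀ u Y : ℕ, δ * X ≤ Y → u + Y ≤ X →
        |((P q a ⌊(N : ℝ) ^ (1 / (r : ℝ))⌋₊ u Y).card : ℝ) * Real.log X -
          Y * (V q a ⌊(N : ℝ) ^ (1 / (r : ℝ))⌋₊ / V1 ⌊(N : ℝ) ^ (1 / (r : ℝ))⌋₊)| ≤
          ε * (Y * (V q a ⌊(N : ℝ) ^ (1 / (r : ℝ))⌋₊ / V1 ⌊(N : ℝ) ^ (1 / (r : ℝ))⌋₊)) ∧
        ∀ T : ℕ, T * V q a ⌊(N : ℝ) ^ (1 / (r : ℝ))⌋₊ ≤ x0 → ∀ J : Finset ℕ,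
          |(((P q a ⌊(N : ℝ) ^ (1 / (r : ℝ))⌋₊ u Y).filter
              (fun n => Next q a ⌊(N : ℝ) ^ (1 / (r : ℝ))⌋₊ T n ∈ J)).card : ℝ) -
            (P q a ⌊(N : ℝ) ^ (1 / (r : ℝ))⌋₊ u Y).card *
              ∑ j ∈ J, Real.exp (-(T * V q a ⌊(N : ℝ) ^ (1 / (r : ℝ))⌋₊)) *
                (T * V q a ⌊(N : ℝ) ^ (1 / (r : ℝ))⌋₊) ^ j / j.factorial| ≤
            ε * (P q a ⌊(N : ℝ) ^ (1 / (r : ℝ))⌋₊ u Y).card := by
  have hq1 : 1 ≤ q := Nat.one_le_iff_ne_zero.2 hq.ne_zero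
  obtain ⟨A, hA⟩ := exists_nat_ge (max (θ / 4) 1)
  obtain ⟨r0, hr0, h0⟩ := Pool.Agent.R490.Gn.primeG q 2 2 (2 * A + 1) hq θ δ hθ hδ hδ1 x0 ε hε hε1
  refine ⟨r0, hr0, fun r hr => ?_⟩
  filter_upwards [h0 r hr (2 ^ q), eventually_ge_atTop (q + 4)] with N hN hN1
  intro a haN hqa hqa2
  have hN0 : (1 : ℝ) ≤ N := by exact_mod_cast (by omega : 1 ≤ N)
  have haA : a ≤ N ^ A := by
    have h1 : (N : ℝ) ^ (θ / 4) ≤ (N : ℝ) ^ (A : ℝ) :=
      Real.rpow_le_rpow_of_exponent_le hN0 ((le_max_left _ _).trans hA)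
    rw [Real.rpow_natCast] at h1
    exact_mod_cast haN.trans h1
  have hqA : q ≤ N ^ A := by
    have hA1 : A ≠ 0 := by
      rintro rfl
      have := (le_max_right (θ / 4) 1).trans hA
      norm_num at this
    exact (by omega : q ≤ N).trans (Nat.le_self_pow hA1 N)
  have hR : Pool.Agent.R490.Gn.Re ![Pool.Agent.Y879.GL.lf (q : ℤ) a, Pool.Agent.R490.QP.qp 1 1 q a]
      (Bad q a) := by
    intro p m
    unfold Bad
    rw [Pool.Agent.R490.QP.re_two _ _ (fun x => (q : ℤ) * x + a)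
      (fun x => ((q : ℤ) * x + a) ^ 2 + 1 * ((q : ℤ) * x + a) + 1)
      (fun x => Pool.Agent.Y879.GL.lf_eval _ _ x) (fun x => Pool.Agent.R490.QP.qp_eval 1 1 q a x) p m]
    simp only [one_mul]
    exact or_congr (by exact_mod_cast Iff.rfl) (by exact_mod_cast Iff.rfl)
  have hok := Pool.Agent.R490.QP.ok_ab 1 1 (by
      rintro ⟨r, hr⟩
      nlinarith [mul_self_nonneg r]) q a N A (by
      have : (4 : ℤ) ≤ N := by exact_mod_cast (by omega : 4 ≤ N)
      simpa using this) hq1 hqA haA hqa (by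
      have := Nat.isCoprime_iff_coprime.2 hqa2
      push_cast at this
      rw [one_mul]
      exact this) (by
      intro p hp
      by_cases h3 : p = 3
      · subst h3
        exact ⟨2, by norm_num, by norm_num⟩
      · refine ⟨1, fun h => hp.one_lt.ne' (Nat.dvd_one.1 h), fun h => h3 ?_⟩
        have h4 : (p : ℤ) ∣ 3 := by simpa using h
        exact (Nat.prime_dvd_prime_iff_eq hp Nat.prime_three).1 (by exact_mod_cast h4))
  exact hN _ _ a hok hR hqa (by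
    rintro p n hp hd (h1 | h1)
    · have h2 : p ∣ a := (Nat.dvd_add_right (dvd_mul_of_dvd_left hd n)).1 h1
      have h3 := Nat.dvd_gcd hd h2
      rw [hqa] at h3
      exact hp.one_lt.ne' (Nat.dvd_one.1 h3)
    · have h2 : p ∣ a ^ 2 + a + 1 := by
        have e : (q * n + a) ^ 2 + (q * n + a) + 1 = q * (n * (q * n + 2 * a + 1)) + (a ^ 2 + a + 1) := by ring
        rw [e] at h1
        exact (Nat.dvd_add_right (dvd_mul_of_dvd_left hd _)).1 h1
      have h3 := Nat.dvd_gcd hd h2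
      rw [hqa2] at h3
      exact hp.one_lt.ne' (Nat.dvd_one.1 h3)) ⟨0, fun n => by
        show (Pool.Agent.Y879.GL.lf (q : ℤ) a).eval (n : ℤ) = _
        rw [Pool.Agent.Y879.GL.lf_eval]⟩ haN _ rfl
    (Pool.Agent.R490.Gn.De_le _ q a hq1 (fun p m _ h => Or.inl h) _)

end Pool.Agent.Results.MP_82233c_nt.PrimesInProgressions
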