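import Pool.Agent.R490.QuadP

set_option autoImplicit false

/-!
# Regular points of arbitrary sets of primes `p` with `p ^ 2 + p + 1` prime, in progressions
-/

namespace Pool.Agent.Results.MP_82233c_nt.RegularPoints

open Finset Filter

/-- `l` divides `n` or `n ^ 2 + n + 1`, where `n = q m + a`. -/
def Bad (q a l m : ℕ) : Prop := l ∣ q * m + a ∨ l ∣ (q * m + a) ^ 2 + (q * m + a) + 1

/-- Neither `n` nor `n ^ 2 + n + 1`, where `n = q m + a`, has a prime factor `≤ y`. -/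
def RoughPair (q a y m : ℕ) : Prop := ∀ l : ℕ, l.Prime → l ≤ y → ¬ Bad q a l m

open Classical in
/-- The density of these `m`: the product of `1 - ν(l) / l` over the primes `l ≤ y`, where `ν(l)` is the
number of the residues `m` modulo `l` with `Bad q a l m`. -/
noncomputable def V (q a y : ℕ) : ℝ := ∏ l ∈ (Finset.range (y + 1)).filter Nat.Prime,
    (1 - (((Finset.range l).filter (fun m : ℕ => Bad q a l m)).card : ℝ) / l)

/-- The density of the integers without prime factor `≤ y`. -/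
noncomputable def V1 (y : ℕ) : ℝ := ∏ l ∈ (Finset.range (y + 1)).filter Nat.Prime, (1 - 1 / (l : ℝ))

open Classical in
/-- The number of elements of `S` in `(a, b]`. -/
noncomputable def count (S : Set ℕ) (a b : ℕ) : ℕ := ((Finset.Ioc a b).filter (fun m => m ∈ S)).card

/-- All intervals `(m - s, m + t]` with `s, t ≤ Y` of length at least `L / κ` contain between
`κ (s + t) / L` and `(s + t) / (κ L)` elements of `S`. -/
def RightOrder (S : Set ℕ) (L κ : ℝ) (Y m : ℕ) : Prop :=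
  ∀ s t : ℕ, s ≤ Y → t ≤ Y → L ≤ κ * (s + t) →
    κ * (s + t) / L ≤ count S (m - s) (m + t) ∧ (count S (m - s) (m + t) : ℝ) ≤ (s + t) / (κ * L)

/-- Up to `δ`, `S` has a constant density on both sides of `m` up to the distance `2 ^ j`. -/
def ConstantDensity (S : Set ℕ) (L κ δ : ℝ) (m j : ℕ) : Prop :=
  ∃ lam : ℝ, κ ≤ lam ∧ lam ≤ 1 / κ ∧ ∀ s t : ℕ, s ≤ 2 ^ j → t ≤ 2 ^ j →
    |(count S (m - s) (m + t) : ℝ) - lam * (s + t) / L| ≤ δ * 2 ^ j / L

open Classical in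
/-- The number of the scales `L ≤ 2 ^ j ≤ Y` without this property. -/
noncomputable def badScales (S : Set ℕ) (L κ δ : ℝ) (Y m : ℕ) : ℕ :=
  ((Finset.range (Nat.log 2 Y + 1)).filter (fun j => L ≤ (2 : ℝ) ^ j ∧ ¬ ConstantDensity S L κ δ m j)).card

/-- The elements of `S` that are not regular points of `S`. -/
def Irregular (S : Set ℕ) (L κ δ : ℝ) (M Y : ℕ) : Set ℕ :=
  {m | m ∈ S ∧ ¬ (RightOrder S L κ Y m ∧ badScales S L κ δ Y m ≤ M)}

/-- **Regular points.** Let `A` and `θ > 0` be given and `r ≥ r0(A, θ)`. For `B, ε > 0` there is `κ > 0`, and for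
`δ > 0` there is `M`, such that for all large `X`, for ALL residue classes `a` modulo `q ≤ X ^ A` for which
`a (a ^ 2 + a + 1)` is prime to `q` and `V ≤ B V1`, all `X ^ θ ≤ Y ≤ X`, `u ≥ Y`, and EVERY set `S` of integers
`m` such that neither `n = q m + a` nor `n ^ 2 + n + 1` has a prime factor `≤ X ^ (1 / r)`, for instance the set
of all `m` for which both are primes `> X ^ (1 / r)`: all but at most `ε Y V` of the elements of `S` in
`(u, u + Y]` are regular points of `S`: all intervals of length between `1 / (κ V)` and `Y` around them contain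
the right order of elements of `S`, and `S` has a constant density up to `δ` around them at all but `M` dyadic
scales. -/
theorem result (A : ℕ) (θ : ℝ) (hθ : 0 < θ) :
    ∃ r0 : ℕ, 2 ≤ r0 ∧ ∀ r : ℕ, r0 ≤ r → ∀ B ε : ℝ, 0 < B → 0 < ε → ∃ κ : ℝ, 0 < κ ∧
      ∀ δ : ℝ, 0 < δ → ∃ M : ℕ, ∀ᶠ X : ℕ in atTop, ∀ q a : ℕ, 1 ≤ q → a ≤ q → q ≤ X ^ A →
      Nat.Coprime q a → Nat.Coprime q (a ^ 2 + a + 1) →
      V q a ⌊(X : ℝ) ^ (1 / (r : ℝ))⌋₊ ≤ B * V1 ⌊(X : ℝ) ^ (1 / (r : ℝ))⌋₊ →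
      ∀ u Y : ℕ, (X : ℝ) ^ θ ≤ Y → Y ≤ X → Y ≤ u →
      ∀ S : Set ℕ, (∀ m ∈ S, RoughPair q a ⌊(X : ℝ) ^ (1 / (r : ℝ))⌋₊ m) →
        (count (Irregular S (1 / V q a ⌊(X : ℝ) ^ (1 / (r : ℝ))⌋₊) κ δ M Y) u (u + Y) : ℝ) ≤
          ε * (Y * V q a ⌊(X : ℝ) ^ (1 / (r : ℝ))⌋₊) := by
  obtain ⟨r0, hr0, h0⟩ := Pool.Agent.R490.Gn.regG 2 2 (2 * A + 1) θ hθ
  refine ⟨r0, hr0, fun r hr B ε hB hε => ?_⟩
  obtain ⟨κ, hκ, h1⟩ := h0 r hr B ε hB hε
  refine ⟨κ, hκ, fun δ hδ => ?_⟩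
  obtain ⟨M, h2⟩ := h1 δ hδ
  refine ⟨M, ?_⟩
  filter_upwards [h2, eventually_ge_atTop 4] with X hX hX1
  intro q a hq1 haq hqA hqa hqa2 hV u Y hY hYX hYu S hS
  have hR : Pool.Agent.R490.Gn.Re ![Pool.Agent.Y879.GL.lf (q : ℤ) a, Pool.Agent.R490.QP.qp 1 1 q a]
      (Bad q a) := by
    intro p m
    unfold Bad
    rw [Pool.Agent.R490.QP.re_two _ _ (fun x => (q : ℤ) * x + a)
      (fun x => ((q : ℤ) * x + a) ^ 2 + 1 * ((q : ℤ) * x + a) + 1)
      (fun x => Pool.Agent.Y879.GL.lf_eval _ _ x) (fun x => Pool.Agent.R490.QP.qp_eval 1 1 q a x) p m]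
    simp only [one_mul]
    exact or_congr (by exact_mod_cast Iff.rfl) (by exact_mod_cast Iff.rfl)
  have hok := Pool.Agent.R490.QP.ok_ab 1 1 (by
      rintro ⟨r, hr⟩
      nlinarith [mul_self_nonneg r]) q a X A (by
      have : (4 : ℤ) ≤ X := by exact_mod_cast hX1
      simpa using this) hq1 hqA (haq.trans hqA) hqa (by
      have := Nat.isCoprime_iff_coprime.2 hqa2
      push_cast at this
      rw [one_mul]
      exact this) (by
      intro p hp
      by_cases h3 : p = 3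
      · subst h3
        exact ⟨2, by norm_num, by norm_num⟩
      · refine ⟨1, fun h => hp.one_lt.ne' (Nat.dvd_one.1 h), fun h => h3 ?_⟩
        have h4 : (p : ℤ) ∣ 3 := by simpa using h
        exact (Nat.prime_dvd_prime_iff_eq hp Nat.prime_three).1 (by exact_mod_cast h4))
  exact hX _ _ hok hR _ rfl hV u Y hY hYX hYu S hS

end Pool.Agent.Results.MP_82233c_nt.RegularPoints
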